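import Pool.Agent.Helper38.TH.GoalsA
import Pool.Agent.Helper83.M3.SOSA
import Pool.Agent.Helper39.TH.TOSBG

/-! Packet TH-T_OSAG of project TH (helper38, MP_fc6b1e_nt). Adapted from `Helper83/M3/SOSA.lean`
and `Helper39/TH/TOSBG.lean`. -/

set_option autoImplicit false

namespace Pool.Agent.Helper70.TH

open Finset
open Pool.Agent.Helper17.PP Pool.Agent.Helper17.PP0 Pool.Agent.Helper17.PP2
open Pool.Agent.Helper11.M3 Pool.Agent.Helper38.TH
open Pool.Agent.Helper30.PP (mem_blk nm_pos sum_swap decomp rsj)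
open Pool.Agent.Helper30.PP2
open Pool.Agent.Helper83.M3 (lks ful_eq₃)
open Pool.Agent.Helper39.TH (FF DD FF_two DD_norm FF_norm ex_char)

variable {p : ℕ} {B B₀ k U Λ C : Type} [Field k] [AddCommGroup U] [Module k U]
    [AddCommGroup Λ] [Module k Λ] [AddCommGroup C] (S : Sys p B B₀ k U Λ C)

/-- the conditions on `r` -/
def cRV (V : B → Prop) (Lk : k → k → Prop) (T E i j : ℕ) (t s : k) (c y : B → k)
    (r : Finset B) : Prop :=
  Set.InjOn S.bs (r : Set B) ∧ Ok S (fun _ ↦ True) T r ∧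
    (∀ q' ∈ r, S.bl q' ≠ j ∧ S.bl q' ≠ i) ∧
    ∀ q' ∈ r, ¬ V q' → T ≤ S.bl q' → Lq S Lk E j t s c y q' → S.bl q' < i

open Classical in
lemma cond_iffV (V : B → Prop) (Lk : k → k → Prop) (T E i j : ℕ) (hTi : T ≤ i) (hTj : T ≤ j) (hij : i ≠ j)
    (t s : k) (c y : B → k) (r : Finset B) (q P₁ : B) (hq : q ∉ r) (hP : P₁ ∉ insert q r) :
    ((S.Fam (insert P₁ (insert q r)) ∧ Ok S (fun _ ↦ True) T (insert P₁ (insert q r))) ∧
      (S.Wt E (insert P₁ (insert q r)) q ∧ S.bl q = j ∧ ¬ V q) ∧ S.bl P₁ = i ∧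
      TlV S V Lk T E (insert P₁ (insert q r)) q t s c y P₁) ↔
    cRV S V Lk T E i j t s c y r ∧ (S.bl q = j ∧ S.spl q) ∧ (S.bl P₁ = i ∧ S.spl P₁) ∧
      (¬ V q ∧ ¬ V P₁) ∧ Lq S Lk E j t s c y P₁ ∧ sm S E j r P₁ ∧
      S.cls P₁ + (S.cls q + ∑ q' ∈ r, S.cls q') = S.cl₀ := by
  have hne : P₁ ≠ q := fun h => hP (h ▸ mem_insert_self _ _)
  have hPr : P₁ ∉ r := fun h => hP (mem_insert_of_mem h)
  have mq : q ∈ insert P₁ (insert q r) := mem_insert_of_mem (mem_insert_self _ _)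
  have mP : P₁ ∈ insert P₁ (insert q r) := mem_insert_self _ _
  have mr : ∀ q' ∈ r, q' ∈ insert P₁ (insert q r) := fun q' hq' =>
    mem_insert_of_mem (mem_insert_of_mem hq')
  constructor
  · rintro ⟨⟨⟨f1, f2⟩, o1, o2⟩, ⟨⟨-, w2, w3, w4⟩, hj, nVq⟩, hi, ⟨-, nVP, -, t3, t4, t5⟩⟩
    rw [sum_insert hP, sum_insert hq] at f2
    rw [hj] at t4
    refine ⟨⟨?_, ⟨?_, ?_⟩, ?_, ?_⟩, ⟨hj, w2⟩, ⟨hi, t4.1.1⟩, ⟨nVq, nVP⟩, t4, ?_, f2⟩
    · refine f1.mono ?_
      intro z hz
      simp only [coe_insert, Set.mem_insert_iff]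
      exact Or.inr (Or.inr hz)
    · exact fun a ha b hb hab => o1 a (mr a ha) b (mr b hb) hab
    · exact fun a ha => o2 a (mr a ha)
    · intro q' hq'
      constructor
      · intro h
        have hne' : q' ≠ q := by rintro rfl; exact hq hq'
        have := o1 q' (mr q' hq') q mq hne' (h.trans hj.symm)
        omega
      · intro h
        have hne' : q' ≠ P₁ := by rintro rfl; exact hPr hq'
        have := o1 q' (mr q' hq') P₁ mP hne' (h.trans hi.symm)
        omega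
    · intro q' hq' hv hT hN
      rw [← hj] at hN
      rw [← hi]
      exact t5 q' (mr q' hq') hv (by rintro rfl; exact hq hq') (by rintro rfl; exact hPr hq') hT hN
    · intro D hD hb
      rw [← hj] at hb ⊢
      refine w4 D (hD.trans (insert_subset_insert _ (subset_insert _ _))) ?_ hb
      intro h
      rcases mem_insert.1 (hD h) with h1 | h1
      · exact hne h1.symm
      · exact hq h1
  · rintro ⟨⟨c1, ⟨c2, c3⟩, c4, c5⟩, ⟨hj, w2⟩, ⟨hi, w2'⟩, ⟨nVq, nVP⟩, hN, hsm, f2⟩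
    have hNbl : ∀ a b, S.bs a = S.bs b → S.bl a = S.bl b := fun a b h => by
      unfold Sys.bl
      rw [S.bsN a b h]
    have hqr : ∀ q' ∈ r, S.bs q ≠ S.bs q' := fun q' hq' h =>
      (c4 q' hq').1 ((hNbl q q' h).symm.trans hj)
    have hPr' : ∀ q' ∈ r, S.bs P₁ ≠ S.bs q' := fun q' hq' h =>
      (c4 q' hq').2 ((hNbl P₁ q' h).symm.trans hi)
    have hPq : S.bs P₁ ≠ S.bs q := fun h => hij (hi.symm.trans ((hNbl P₁ q h).trans hj))
    refine ⟨⟨⟨?_, ?_⟩, ⟨?_, ?_⟩⟩, ⟨⟨mq, w2, ?_, ?_⟩, hj, nVq⟩, hi,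
      ⟨mP, nVP, hne, by omega, by rw [hj]; exact hN, ?_⟩⟩
    · rw [coe_insert, coe_insert, Set.injOn_insert (by
        simp only [Set.mem_insert_iff, not_or]
        exact ⟨hne, hPr⟩), Set.injOn_insert hq]
      refine ⟨⟨c1, ?_⟩, ?_⟩
      · rintro ⟨q', hq', h⟩
        exact hqr q' hq' h.symm
      · rintro ⟨q', hq', h⟩
        rcases hq' with rfl | hq'
        · exact hPq h.symm
        · exact hPr' q' hq' h.symm
    · rw [sum_insert hP, sum_insert hq]
      exact f2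
    · intro a ha b hb hab hbl
      simp only [mem_insert] at ha hb
      rcases ha with ha | ha | ha
      · rcases hb with hb | hb | hb
        · exact absurd (ha.trans hb.symm) hab
        · rw [ha, hb] at hbl
          exact absurd (hi.symm.trans (hbl.trans hj)) hij
        · rw [ha] at hbl
          exact absurd (hbl.symm.trans hi) (c4 b hb).2
      · rcases hb with hb | hb | hb
        · rw [ha, hb] at hbl
          exact absurd (hi.symm.trans (hbl.symm.trans hj)) hij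
        · exact absurd (ha.trans hb.symm) hab
        · rw [ha] at hbl
          exact absurd (hbl.symm.trans hj) (c4 b hb).1
      · rcases hb with hb | hb | hb
        · rw [hb] at hbl
          exact absurd (hbl.trans hi) (c4 a ha).2
        · rw [hb] at hbl
          exact absurd (hbl.trans hj) (c4 a ha).1
        · exact c2 a ha b hb hab hbl
    · exact fun _ _ _ => trivial
    · intro q' hq' hne' hs
      rw [hj]
      rcases mem_insert.1 hq' with rfl | hq'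
      · rw [hi]; exact hij
      rcases mem_insert.1 hq' with rfl | hq'
      · exact absurd rfl hne'
      · exact (c4 q' hq').1
    · intro D hD hqD hb
      rw [hj] at hb ⊢
      refine hsm D ?_ hb
      intro z hz
      rcases mem_insert.1 (hD hz) with h1 | h1
      · exact mem_insert.2 (Or.inl h1)
      rcases mem_insert.1 h1 with h1 | h1
      · exact absurd (h1 ▸ hz) hqD
      · exact mem_insert_of_mem h1
    · intro q' hq' hv h1 h2 hT hN'
      rw [hj] at hN'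
      rw [hi]
      rcases mem_insert.1 hq' with h3 | h3
      · exact absurd h3 h2
      rcases mem_insert.1 h3 with h3 | h3
      · exact absurd h3 h1
      · exact c5 q' h3 hv hT hN'

open Classical in
/-- the summand for fixed `x, t, χ, c, y` -/
noncomputable def ggV [Algebra (ZMod p) k] [Fintype k] (V : B → Prop) (Fz : Finset B → ℂ)
    (ψ : AddChar k ℂ) (Lk : k → k → Prop) (T E i j : ℕ) (t s : k) (X : ℝ)
    (x : U) (χ : AddChar Λ ℂ) (c y : B → k) (b : Finset B) (q P₁ : B) : ℂ :=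
  if (S.Fam b ∧ Ok S (fun _ ↦ True) T b) ∧ (S.Wt E b q ∧ S.bl q = j ∧ ¬ V q) ∧ S.bl P₁ = i ∧
      TlV S V Lk T E b q t s c y P₁ then
    (Fintype.card k : ℂ) ^ (S.rs b q).card *
      ph S ψ χ b x (cutc S j q t c) (cuty S E j q s y) *
        (Fz b * (Real.exp (-(S.nm b / X)) : ℂ))
  else 0

open Classical in
/-- the coefficient of `q₁` -/
noncomputable def alV [Algebra (ZMod p) k] (V : B → Prop) (Dz : Finset B → B → ℂ)
    (ψ : AddChar k ℂ) (E j : ℕ) (x : U) (χ : AddChar Λ ℂ) (c y : B → k) (P r : Finset B) (γ : C)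
    (z : k × k) (P₁ : B) : ℂ :=
  if V P₁ then 0 else al S ψ E j x χ c y P r γ z P₁ * Dz r P₁

open Classical in
/-- the coefficient of `q` -/
noncomputable def beV [Algebra (ZMod p) k] (V : B → Prop) (Dz : Finset B → B → ℂ)
    (ψ : AddChar k ℂ) (E j : ℕ) (s : k)
    (x : U) (t : k) (χ : AddChar Λ ℂ) (c y : B → k) (P r : Finset B) (γ : C) (q : B) : ℂ :=
  if V q then 0 else be S ψ E j s x t χ c y P r γ q * Dz r q

lemma alV_norm [Algebra (ZMod p) k] [Finite k] [Finite Λ] (V : B → Prop)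
    (Dz : Finset B → B → ℂ) (hD : ∀ r q, ‖Dz r q‖ ≤ 1)
    (ψ : AddChar k ℂ) (E j : ℕ) (x : U) (χ : AddChar Λ ℂ) (c y : B → k) (P r : Finset B) (γ : C)
    (z : k × k) (P₁ : B) :
    ‖alV S V Dz ψ E j x χ c y P r γ z P₁‖ ≤ 1 := by
  unfold alV
  split_ifs
  · simp
  · rw [norm_mul]
    exact mul_le_one₀ (al_norm S ψ E j x χ c y P r γ z P₁) (norm_nonneg _) (hD r P₁)

lemma beV_norm [Algebra (ZMod p) k] [Finite k] [Finite Λ] (V : B → Prop)
    (Dz : Finset B → B → ℂ) (hD : ∀ r q, ‖Dz r q‖ ≤ 1)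
    (ψ : AddChar k ℂ) (E j : ℕ) (s : k)
    (x : U) (t : k) (χ : AddChar Λ ℂ) (c y : B → k) (P r : Finset B) (γ : C) (q : B) :
    ‖beV S V Dz ψ E j s x t χ c y P r γ q‖ ≤ 1 := by
  unfold beV
  split_ifs
  · simp
  · rw [norm_mul]
    exact mul_le_one₀ (be_norm S ψ E j s x t χ c y P r γ q) (norm_nonneg _) (hD r q)

open Classical in
lemma gg_eqV [Algebra (ZMod p) k] [Fintype k] [Fintype C] (V : B → Prop) (Fz : Finset B → ℂ)
    (Dz : Finset B → B → ℂ)
    (hFD : ∀ (r : Finset B) (q₁ q₂ : B), q₁ ∉ r → q₂ ∉ insert q₁ r → ¬ V q₁ → ¬ V q₂ →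
      Fz (insert q₂ (insert q₁ r)) = Fz r * Dz r q₁ * Dz r q₂)
    (ψ : AddChar k ℂ) (Lk : k → k → Prop) (T E i j : ℕ) (hTi : T ≤ i) (hTj : T ≤ j) (hij : i ≠ j)
    (t s : k) (X : ℝ) (hX : 0 < X)
    (x : U) (χ : AddChar Λ ℂ) (c y : B → k) (P r : Finset B)
    (hcR : cRV S V Lk T E i j t s c y r) (q P₁ : B)
    (hq : q ∈ P \ r) (hP : P₁ ∈ P \ insert q r) :
    ggV S V Fz ψ Lk T E i j t s X x χ c y (insert P₁ (insert q r)) q P₁ =
      if q ∈ (S.blk j).filter (fun q => S.spl q) then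
        (if P₁ ∈ (S.blk i).filter (fun q => S.spl q) then
          ∑ γ : C, ∑ z ∈ lks Lk t s,
            ((Fintype.card k : ℂ) ^ ((rsj S j r).card + exq i j) * Fz r) *
            (alV S V Dz ψ E j x χ c y P r γ z P₁ * beV S V Dz ψ E j s x t χ c y P r γ q *
              Ph S ψ t s z.1 z.2 q P₁ *
              (Real.exp (-((S.N q : ℝ) * S.N P₁ / (X / S.nm r))) : ℂ))
        else 0) else 0 := by
  have hqr : q ∉ r := (mem_sdiff.1 hq).2
  have hP' := mem_sdiff.1 hP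
  have hPr : P₁ ∈ P \ r := mem_sdiff.2 ⟨hP'.1, fun h => hP'.2 (mem_insert_of_mem h)⟩
  unfold ggV
  rw [if_congr (cond_iffV S V Lk T E i j hTi hTj hij t s c y r q P₁ hqr hP'.2) rfl rfl]
  simp only [mem_filter, mem_blk]
  by_cases h1 : S.bl q = j ∧ S.spl q
  · rw [if_pos h1]
    by_cases h2 : S.bl P₁ = i ∧ S.spl P₁
    · rw [if_pos h2]
      by_cases hV : ¬ V q ∧ ¬ V P₁
      swap
      · rw [if_neg (fun h => hV h.2.2.2.1), sum_eq_zero]
        intro γ _
        refine sum_eq_zero fun z _ => ?_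
        unfold alV beV
        rw [not_and_or, not_not, not_not] at hV
        rcases hV with hV | hV
        · rw [if_pos hV]
          ring
        · rw [if_pos hV]
          ring
      rw [sum_eq_single (S.cls q)]
      · by_cases h3 : Lq S Lk E j t s c y P₁ ∧ sm S E j r P₁ ∧
            S.cls P₁ + (S.cls q + ∑ q' ∈ r, S.cls q') = S.cl₀
        · have h4 : S.cls P₁ = S.cl₀ - S.cls q - ∑ q' ∈ r, S.cls q' := by
            rw [← h3.2.2]
            abel
          rw [if_pos ⟨hcR, h1, h2, hV, h3⟩]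
          have hz : (c0 S j c P₁, y0 S E j y P₁) ∈ lks Lk t s := by
            rw [lks, mem_filter, mem_erase]
            refine ⟨⟨?_, mem_univ _⟩, h3.1.2⟩
            intro h
            rw [Prod.mk_eq_zero] at h
            rcases (Nz_iff S E j c y P₁).1 h3.1.1 with h5 | h5
            · exact h5 h.1
            · exact h5 h.2
          rw [sum_eq_single_of_mem _ hz]
          · unfold alV beV
            rw [if_neg hV.1, if_neg hV.2]
            unfold al be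
            rw [if_pos (⟨hq, rfl⟩ : q ∈ P \ r ∧ S.cls q = S.cls q), if_pos ⟨hPr, h4, h3.2.1, rfl⟩]
            rw [ph_two S ψ χ E j r x t s c y q P₁ hqr hP'.2,
              rs_card S i j r q P₁ hqr hP'.2 h1.1 h2.1 h2.2,
              hFD r q P₁ hqr hP'.2 hV.1 hV.2]
            have h5 : S.nm (insert P₁ (insert q r)) = S.N P₁ * (S.N q * S.nm r) := by
              unfold Sys.nm
              rw [prod_insert hP'.2, prod_insert hqr]
            have h6 : ((S.nm (insert P₁ (insert q r)) : ℕ) : ℝ) / X =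
                (S.N q : ℝ) * S.N P₁ / (X / S.nm r) := by
              have h7 : (S.nm r : ℝ) ≠ 0 := by exact_mod_cast (nm_pos S r).ne'
              rw [h5]
              push_cast
              field_simp
            rw [h6]
            ring
          · intro z _ hz'
            unfold alV al
            rw [if_neg hV.2, if_neg (fun h => hz' h.2.2.2.symm)]
            ring
        · rw [if_neg (fun h => h3 h.2.2.2.2), sum_eq_zero]
          intro z hz
          unfold alV al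
          rw [if_neg hV.2, if_neg]
          · ring
          · rintro ⟨-, h4, h5, h6⟩
            rw [lks, mem_filter] at hz
            refine h3 ⟨⟨?_, ?_⟩, h5, ?_⟩
            · rw [Nz_iff]
              by_contra h7
              rw [not_or, not_not, not_not] at h7
              rw [h7.1, h7.2] at h6
              exact (mem_erase.1 hz.1).1 h6.symm
            · have h7 := hz.2
              rw [← h6] at h7
              exact h7
            · rw [h4]
              abel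
      · intro γ _ hγ
        refine sum_eq_zero fun z _ => ?_
        unfold beV be
        rw [if_neg hV.1, if_neg (fun h => hγ h.2.symm)]
        ring
      · intro h
        exact absurd (mem_univ _) h
    · rw [if_neg h2, if_neg]
      rintro ⟨-, -, h3, -⟩
      exact h2 h3
  · rw [if_neg h1, if_neg]
    rintro ⟨-, h3, -⟩
    exact h1 h3

open Classical in
lemma inner_eqV [Algebra (ZMod p) k] [Fintype k] [Fintype C] (V : B → Prop) (Fz : Finset B → ℂ)
    (Dz : Finset B → B → ℂ)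
    (hFD : ∀ (r : Finset B) (q₁ q₂ : B), q₁ ∉ r → q₂ ∉ insert q₁ r → ¬ V q₁ → ¬ V q₂ →
      Fz (insert q₂ (insert q₁ r)) = Fz r * Dz r q₁ * Dz r q₂)
    (ψ : AddChar k ℂ) (Lk : k → k → Prop) (T E i j : ℕ) (hTi : T ≤ i) (hTj : T ≤ j) (hij : i ≠ j)
    (t s : k) (X : ℝ) (hX : 0 < X)
    (x : U) (χ : AddChar Λ ℂ) (c y : B → k) (P r : Finset B)
    (hcR : cRV S V Lk T E i j t s c y r) :
    ∑ q ∈ P \ r, ∑ P₁ ∈ P \ insert q r,
      ggV S V Fz ψ Lk T E i j t s X x χ c y (insert P₁ (insert q r)) q P₁ =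
    ∑ γ : C, ∑ z ∈ lks Lk t s,
      ((Fintype.card k : ℂ) ^ ((rsj S j r).card + exq i j) * Fz r) *
      ∑ P₁ ∈ S.blk i with S.spl P₁, ∑ q ∈ S.blk j with S.spl q,
        alV S V Dz ψ E j x χ c y P r γ z P₁ * beV S V Dz ψ E j s x t χ c y P r γ q *
              Ph S ψ t s z.1 z.2 q P₁ *
              (Real.exp (-((S.N q : ℝ) * S.N P₁ / (X / S.nm r))) : ℂ) := by
  set h : B → B → ℂ := fun q P₁ => ∑ γ : C, ∑ z ∈ lks Lk t s,
            ((Fintype.card k : ℂ) ^ ((rsj S j r).card + exq i j) * Fz r) *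
            (alV S V Dz ψ E j x χ c y P r γ z P₁ * beV S V Dz ψ E j s x t χ c y P r γ q *
              Ph S ψ t s z.1 z.2 q P₁ *
              (Real.exp (-((S.N q : ℝ) * S.N P₁ / (X / S.nm r))) : ℂ)) with hh
  have hq0 : ∀ q P₁, q ∉ P \ r → h q P₁ = 0 := by
    intro q P₁ hq
    rw [hh]
    refine sum_eq_zero fun γ _ => sum_eq_zero fun z _ => ?_
    have h0 : be S ψ E j s x t χ c y P r γ q = 0 := by
      unfold be
      exact if_neg (fun h => hq h.1)
    unfold beV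
    rw [h0]
    split_ifs <;> ring
  have hP0 : ∀ q P₁, P₁ ∉ P \ r → h q P₁ = 0 := by
    intro q P₁ hq
    rw [hh]
    refine sum_eq_zero fun γ _ => sum_eq_zero fun z _ => ?_
    have h0 : al S ψ E j x χ c y P r γ z P₁ = 0 := by
      unfold al
      exact if_neg (fun h => hq h.1)
    unfold alV
    rw [h0]
    split_ifs <;> ring
  have e1 : ∑ q ∈ P \ r, ∑ P₁ ∈ P \ insert q r,
      ggV S V Fz ψ Lk T E i j t s X x χ c y (insert P₁ (insert q r)) q P₁ =
      ∑ q ∈ P \ r, if q ∈ (S.blk j).filter (fun q => S.spl q) then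
        ∑ P₁ ∈ P \ r, (if P₁ ∈ (S.blk i).filter (fun q => S.spl q) then h q P₁ else 0)
        else 0 := by
    refine sum_congr rfl fun q hq => ?_
    have e2 : ∑ P₁ ∈ P \ insert q r,
        ggV S V Fz ψ Lk T E i j t s X x χ c y (insert P₁ (insert q r)) q P₁ =
        ∑ P₁ ∈ P \ insert q r, (if q ∈ (S.blk j).filter (fun q => S.spl q) then
          (if P₁ ∈ (S.blk i).filter (fun q => S.spl q) then h q P₁ else 0) else 0) :=
      sum_congr rfl fun P₁ hP => gg_eqV S V Fz Dz hFD ψ Lk T E i j hTi hTj hij t s X hX x χ c y P r hcR q P₁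
        hq hP
    rw [e2]
    split_ifs with h1
    · refine sum_subset (sdiff_subset_sdiff subset_rfl (subset_insert _ _)) ?_
      intro P₁ h2 h3
      have h4 : P₁ = q := by
        by_contra h4
        refine h3 (mem_sdiff.2 ⟨(mem_sdiff.1 h2).1, fun h5 => ?_⟩)
        rcases mem_insert.1 h5 with h6 | h6
        · exact h4 h6
        · exact (mem_sdiff.1 h2).2 h6
      rw [if_neg]
      rw [h4]
      intro h5
      exact hij (((mem_blk S i q).1 (mem_filter.1 h5).1).symm.trans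
        ((mem_blk S j q).1 (mem_filter.1 h1).1))
    · simp
  rw [e1, sum_swap]
  have e3 : ∀ q ∈ (S.blk j).filter (fun q => S.spl q),
      (if q ∈ P \ r then ∑ P₁ ∈ P \ r,
        (if P₁ ∈ (S.blk i).filter (fun q => S.spl q) then h q P₁ else 0) else 0) =
      ∑ P₁ ∈ (S.blk i).filter (fun q => S.spl q), h q P₁ := by
    intro q _
    split_ifs with h1
    · rw [sum_swap]
      refine sum_congr rfl fun P₁ _ => ?_
      split_ifs with h2
      · rfl
      · exact (hP0 q P₁ h2).symm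
    · exact (sum_eq_zero fun P₁ _ => hq0 q P₁ h1).symm
  rw [sum_congr rfl e3, sum_comm]
  rw [hh]
  simp only [mul_sum]
  calc _ = ∑ P₁ ∈ (S.blk i).filter (fun q => S.spl q), ∑ γ : C,
      ∑ z ∈ lks Lk t s, ∑ q ∈ (S.blk j).filter (fun q => S.spl q),
            ((Fintype.card k : ℂ) ^ ((rsj S j r).card + exq i j) * Fz r) *
            (alV S V Dz ψ E j x χ c y P r γ z P₁ * beV S V Dz ψ E j s x t χ c y P r γ q *
              Ph S ψ t s z.1 z.2 q P₁ *
              (Real.exp (-((S.N q : ℝ) * S.N P₁ / (X / S.nm r))) : ℂ)) := by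
        refine sum_congr rfl fun P₁ _ => ?_
        rw [sum_comm]
        exact sum_congr rfl fun γ _ => sum_comm
    _ = _ := by
      rw [sum_comm]
      exact sum_congr rfl fun γ _ => sum_comm

open Classical in
lemma inner_leV [Algebra (ZMod p) k] [Fintype k] [Fintype C] [Finite Λ] (V : B → Prop) (Fz : Finset B → ℂ)
    (Dz : Finset B → B → ℂ)
    (hFD : ∀ (r : Finset B) (q₁ q₂ : B), q₁ ∉ r → q₂ ∉ insert q₁ r → ¬ V q₁ → ¬ V q₂ →
      Fz (insert q₂ (insert q₁ r)) = Fz r * Dz r q₁ * Dz r q₂)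
    (hD : ∀ r q, ‖Dz r q‖ ≤ 1) (hF : ∀ r, ‖Fz r‖ ≤ (p : ℝ) ^ r.card)
    (ψ : AddChar k ℂ) (Lk : k → k → Prop) (Cs : k → AddSubgroup k) (M : ℕ) (g : ℝ → ℝ)
    (K : ℕ) (hH : Hyp₃ S ψ Lk Cs M g K)
    (T E i j : ℕ) (hi : 1 ≤ i) (hj : 1 ≤ j) (hTi : T ≤ i) (hTj : T ≤ j) (hij : i ≠ j)
    (t s : k) (ht : t ≠ 0) (hs : s ≠ 0) (X : ℝ) (hX : 0 < X)
    (x : U) (χ : AddChar Λ ℂ) (c y : B → k) (P r : Finset B) :
    ‖∑ q ∈ P \ r, ∑ P₁ ∈ P \ insert q r,
      ggV S V Fz ψ Lk T E i j t s X x χ c y (insert P₁ (insert q r)) q P₁‖ ≤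
    Fintype.card C * ((Fintype.card k : ℝ) ^ 3 * (((Fintype.card k : ℝ) * p) ^ r.card *
      (K * 2 ^ (i + j) * (i + j) ^ K * (2 : ℝ) ^ (-(min i j : ℝ) / K) *
        Real.exp (-(S.nm r / (2 * X / 2 ^ (i + j))))))) := by
  have hnm : (0 : ℝ) < S.nm r := by exact_mod_cast nm_pos S r
  by_cases hcR : cRV S V Lk T E i j t s c y r
  · rw [inner_eqV S V Fz Dz hFD ψ Lk T E i j hTi hTj hij t s X hX x χ c y P r hcR]
    refine (norm_sum_le _ _).trans ?_
    have h4 : (1 : ℝ) ≤ Fintype.card k := by exact_mod_cast Fintype.card_pos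
    have h1 : ∀ γ ∈ (univ : Finset C), ‖∑ z ∈ lks Lk t s,
      ((Fintype.card k : ℂ) ^ ((rsj S j r).card + exq i j) * Fz r) *
      ∑ P₁ ∈ S.blk i with S.spl P₁, ∑ q ∈ S.blk j with S.spl q,
        alV S V Dz ψ E j x χ c y P r γ z P₁ * beV S V Dz ψ E j s x t χ c y P r γ q *
              Ph S ψ t s z.1 z.2 q P₁ *
              (Real.exp (-((S.N q : ℝ) * S.N P₁ / (X / S.nm r))) : ℂ)‖ ≤
        (Fintype.card k : ℝ) ^ 3 * (((Fintype.card k : ℝ) * p) ^ r.card *
      (K * 2 ^ (i + j) * (i + j) ^ K * (2 : ℝ) ^ (-(min i j : ℝ) / K) *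
        Real.exp (-(S.nm r / (2 * X / 2 ^ (i + j)))))) := by
      intro γ _
      refine (norm_sum_le _ _).trans ?_
      have h1' : ∀ z ∈ lks Lk t s,
        ‖((Fintype.card k : ℂ) ^ ((rsj S j r).card + exq i j) * Fz r) *
        ∑ P₁ ∈ S.blk i with S.spl P₁, ∑ q ∈ S.blk j with S.spl q,
        alV S V Dz ψ E j x χ c y P r γ z P₁ * beV S V Dz ψ E j s x t χ c y P r γ q *
              Ph S ψ t s z.1 z.2 q P₁ *
              (Real.exp (-((S.N q : ℝ) * S.N P₁ / (X / S.nm r))) : ℂ)‖ ≤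
          Fintype.card k * (((Fintype.card k : ℝ) * p) ^ r.card *
          (K * 2 ^ (i + j) * (i + j) ^ K * (2 : ℝ) ^ (-(min i j : ℝ) / K) *
          Real.exp (-(S.nm r / (2 * X / 2 ^ (i + j)))))) := by
        intro z hz
        rw [norm_mul, norm_mul, norm_pow, Complex.norm_natCast]
        rw [lks, mem_filter] at hz
        have hz' : z.1 ≠ 0 ∨ z.2 ≠ 0 := by
          by_contra h
          rw [not_or, not_not, not_not] at h
          exact (mem_erase.1 hz.1).1 (Prod.ext h.1 h.2)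
        have h2 := hH.bl₃ i j t s z.1 z.2 (alV S V Dz ψ E j x χ c y P r γ z)
          (beV S V Dz ψ E j s x t χ c y P r γ)
          (X / S.nm r) hi hj hij ht hs hz' hz.2 (by positivity) (alV_norm S V Dz hD ψ E j x χ c y P r γ z)
          (beV_norm S V Dz hD ψ E j s x t χ c y P r γ)
        have h3 : (2 : ℝ) ^ (i + j) / (2 * (X / S.nm r)) = S.nm r / (2 * X / 2 ^ (i + j)) := by
          field_simp
        rw [h3] at h2
        have h5 : (rsj S j r).card ≤ r.card := card_filter_le _ _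
        have h6 := exq_le i j
        rw [← mul_assoc]
        unfold Ph
        refine mul_le_mul ?_ h2 (norm_nonneg _) (by positivity)
        rw [mul_pow, ← mul_assoc, ← pow_succ']
        exact mul_le_mul (pow_le_pow_right₀ h4 (by omega)) (hF r) (norm_nonneg _) (by positivity)
      refine (sum_le_sum h1').trans ?_
      rw [sum_const, nsmul_eq_mul]
      have h7 : ((lks Lk t s).card : ℝ) ≤ (Fintype.card k : ℝ) * Fintype.card k := by
        have h8 := card_le_univ (lks Lk t s)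
        rw [Fintype.card_prod] at h8
        exact_mod_cast h8
      refine (mul_le_mul_of_nonneg_right h7 (by positivity)).trans (le_of_eq ?_)
      ring
    refine (sum_le_sum h1).trans ?_
    rw [sum_const, nsmul_eq_mul, card_univ]
  · have h1 : ∑ q ∈ P \ r, ∑ P₁ ∈ P \ insert q r,
        ggV S V Fz ψ Lk T E i j t s X x χ c y (insert P₁ (insert q r)) q P₁ = 0 := by
      refine sum_eq_zero fun q hq => sum_eq_zero fun P₁ hP => ?_
      unfold ggV
      rw [if_neg]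
      rw [cond_iffV S V Lk T E i j hTi hTj hij t s c y r q P₁ (mem_sdiff.1 hq).2 (mem_sdiff.1 hP).2]
      exact fun h => hcR h.1
    rw [h1, norm_zero]
    positivity

open Classical in
lemma fixed_leV (hdec : C_DEC) [Algebra (ZMod p) k] [Fintype k] [Fintype C] [Finite Λ]
    (V : B → Prop) (Fz : Finset B → ℂ)
    (Dz : Finset B → B → ℂ)
    (hFD : ∀ (r : Finset B) (q₁ q₂ : B), q₁ ∉ r → q₂ ∉ insert q₁ r → ¬ V q₁ → ¬ V q₂ →
      Fz (insert q₂ (insert q₁ r)) = Fz r * Dz r q₁ * Dz r q₂)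
    (hD : ∀ r q, ‖Dz r q‖ ≤ 1) (hF : ∀ r, ‖Fz r‖ ≤ (p : ℝ) ^ r.card)
    (ψ : AddChar k ℂ) (Lk : k → k → Prop) (Cs : k → AddSubgroup k) (M : ℕ) (g : ℝ → ℝ)
    (K : ℕ) (hH : Hyp₃ S ψ Lk Cs M g K)
    (T E i j : ℕ) (hi : 1 ≤ i) (hj : 1 ≤ j) (hTi : T ≤ i) (hTj : T ≤ j) (hij : i ≠ j)
    (t s : k) (ht : t ≠ 0) (hs : s ≠ 0) (X : ℝ) (hX : 0 < X)
    (x : U) (χ : AddChar Λ ℂ) (c y : B → k) (P : Finset B) :
    ‖∑ b ∈ P.powerset with (S.Fam b ∧ Ok S (fun _ ↦ True) T b), ∑ q ∈ b with (S.Wt E b q ∧ S.bl q = j ∧ ¬ V q),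
      ∑ P₁ ∈ b with S.bl P₁ = i, (if TlV S V Lk T E b q t s c y P₁ then
      (Fintype.card k : ℂ) ^ (S.rs b q).card *
      ph S ψ χ b x (cutc S (S.bl q) q t c) (cuty S E (S.bl q) q s y) *
      (Fz b * (Real.exp (-(S.nm b / X)) : ℂ)) else 0)‖ ≤
    ∑ r ∈ P.powerset, Fintype.card C * ((Fintype.card k : ℝ) ^ 3 *
      (((Fintype.card k : ℝ) * p) ^ r.card *
      (K * 2 ^ (i + j) * (i + j) ^ K * (2 : ℝ) ^ (-(min i j : ℝ) / K) *
        Real.exp (-(S.nm r / (2 * X / 2 ^ (i + j))))))) := by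
  have e1 : ∑ b ∈ P.powerset with (S.Fam b ∧ Ok S (fun _ ↦ True) T b),
      ∑ q ∈ b with (S.Wt E b q ∧ S.bl q = j ∧ ¬ V q),
      ∑ P₁ ∈ b with S.bl P₁ = i, (if TlV S V Lk T E b q t s c y P₁ then
      (Fintype.card k : ℂ) ^ (S.rs b q).card *
      ph S ψ χ b x (cutc S (S.bl q) q t c) (cuty S E (S.bl q) q s y) *
      (Fz b * (Real.exp (-(S.nm b / X)) : ℂ)) else 0) =
      ∑ b ∈ P.powerset, ∑ q ∈ b, ∑ P₁ ∈ b, ggV S V Fz ψ Lk T E i j t s X x χ c y b q P₁ := by
    rw [sum_filter]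
    refine sum_congr rfl fun b _ => ?_
    by_cases h1 : S.Fam b ∧ Ok S (fun _ ↦ True) T b
    · rw [if_pos h1, sum_filter]
      refine sum_congr rfl fun q _ => ?_
      by_cases h2 : S.Wt E b q ∧ S.bl q = j ∧ ¬ V q
      · rw [if_pos h2, sum_filter]
        refine sum_congr rfl fun P₁ _ => ?_
        unfold ggV
        by_cases h3 : S.bl P₁ = i
        · rw [if_pos h3]
          by_cases h4 : TlV S V Lk T E b q t s c y P₁
          · rw [if_pos h4, if_pos ⟨h1, h2, h3, h4⟩, h2.2.1]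
          · rw [if_neg h4, if_neg (fun h => h4 h.2.2.2)]
        · rw [if_neg h3, if_neg (fun h => h3 h.2.2.1)]
      · rw [if_neg h2]
        refine (sum_eq_zero fun P₁ _ => ?_).symm
        unfold ggV
        rw [if_neg (fun h => h2 h.2.1)]
    · rw [if_neg h1]
      refine (sum_eq_zero fun q _ => sum_eq_zero fun P₁ _ => ?_).symm
      unfold ggV
      rw [if_neg (fun h => h1 h.1)]
  rw [e1, decomp hdec P (ggV S V Fz ψ Lk T E i j t s X x χ c y) (fun b q => by
    unfold ggV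
    rw [if_neg (fun h => h.2.2.2.ne rfl)])]
  refine (norm_sum_le _ _).trans (sum_le_sum fun r _ => ?_)
  exact inner_leV S V Fz Dz hFD hD hF ψ Lk Cs M g K hH T E i j hi hj hTi hTj hij t s ht hs X hX x χ c y P r


open Classical in
lemma total_leV (hdec : C_DEC) [Algebra (ZMod p) k] [Fintype k] [Fintype C] [Fintype U]
    [Fintype Λ]
    (V : B → Prop) (Fz : Finset B → ℂ)
    (Dz : Finset B → B → ℂ)
    (hFD : ∀ (r : Finset B) (q₁ q₂ : B), q₁ ∉ r → q₂ ∉ insert q₁ r → ¬ V q₁ → ¬ V q₂ →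
      Fz (insert q₂ (insert q₁ r)) = Fz r * Dz r q₁ * Dz r q₂)
    (hD : ∀ r q, ‖Dz r q‖ ≤ 1) (hF : ∀ r, ‖Fz r‖ ≤ (p : ℝ) ^ r.card)
    (ψ : AddChar k ℂ) (Lk : k → k → Prop) (Cs : k → AddSubgroup k) (M : ℕ) (g : ℝ → ℝ)
    (K : ℕ) (hH : Hyp₃ S ψ Lk Cs M g K)
    (T E i j : ℕ) (hi : 1 ≤ i) (hj : 1 ≤ j) (hTi : T ≤ i) (hTj : T ≤ j) (hij : i ≠ j)
    (t s : k) (ht : t ≠ 0) (hs : s ≠ 0) (X : ℝ) (hX : 0 < X) (P : Finset B) :
    ‖∑ b ∈ P.powerset with (S.Fam b ∧ Ok S (fun _ ↦ True) T b), ∑ q ∈ b with (S.Wt E b q ∧ S.bl q = j ∧ ¬ V q),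
      ∑ q₁ ∈ b with S.bl q₁ = i, ful₃ S ψ E P b q t s (fun c y ↦ TlV S V Lk T E b q t s c y q₁) *
        (Fz b * (Real.exp (-(S.nm b / X)) : ℂ))‖ ≤
    Fintype.card U * Fintype.card k *
    ∑ r ∈ P.powerset, Fintype.card C * ((Fintype.card k : ℝ) ^ 3 *
      (((Fintype.card k : ℝ) * p) ^ r.card *
      (K * 2 ^ (i + j) * (i + j) ^ K * (2 : ℝ) ^ (-(min i j : ℝ) / K) *
        Real.exp (-(S.nm r / (2 * X / 2 ^ (i + j))))))) := by
  set M₁ := ∑ r ∈ P.powerset, Fintype.card C * ((Fintype.card k : ℝ) ^ 3 *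
      (((Fintype.card k : ℝ) * p) ^ r.card *
      (K * 2 ^ (i + j) * (i + j) ^ K * (2 : ℝ) ^ (-(min i j : ℝ) / K) *
        Real.exp (-(S.nm r / (2 * X / 2 ^ (i + j))))))) with hM
  have hM0 : 0 ≤ M₁ := by
    rw [hM]
    positivity
  set Z : Finset (U × AddChar Λ ℂ × (B → k) × (B → k)) :=
    (univ : Finset U) ×ˢ (univ : Finset (AddChar Λ ℂ)) ×ˢ (lab k P) ×ˢ (lab k P) with hZ
  have hlab : 0 < (lab k P).card := card_pos.2 ⟨0, mem_lab.2 fun _ _ => rfl⟩
  have e1 : ∑ b ∈ P.powerset with (S.Fam b ∧ Ok S (fun _ ↦ True) T b),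
      ∑ q ∈ b with (S.Wt E b q ∧ S.bl q = j ∧ ¬ V q),
      ∑ q₁ ∈ b with S.bl q₁ = i, ful₃ S ψ E P b q t s (fun c y ↦ TlV S V Lk T E b q t s c y q₁) *
        (Fz b * (Real.exp (-(S.nm b / X)) : ℂ)) =
      ∑ z ∈ Z, (1 / (Fintype.card Λ * ((lab k P).card : ℂ) ^ 2)) *
      ∑ b ∈ P.powerset with (S.Fam b ∧ Ok S (fun _ ↦ True) T b), ∑ q ∈ b with (S.Wt E b q ∧ S.bl q = j ∧ ¬ V q),
      ∑ P₁ ∈ b with S.bl P₁ = i, (if TlV S V Lk T E b q t s z.2.2.1 z.2.2.2 P₁ then
      (Fintype.card k : ℂ) ^ (S.rs b q).card *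
      ph S ψ z.2.1 b z.1 (cutc S (S.bl q) q t z.2.2.1)
        (cuty S E (S.bl q) q s z.2.2.2) *
      (Fz b * (Real.exp (-(S.nm b / X)) : ℂ)) else 0) := by
    simp only [ful_eq₃, mul_sum]
    calc _ = ∑ b ∈ P.powerset with (S.Fam b ∧ Ok S (fun _ ↦ True) T b), ∑ z ∈ Z,
        ∑ q ∈ b with (S.Wt E b q ∧ S.bl q = j ∧ ¬ V q), ∑ P₁ ∈ b with S.bl P₁ = i,
          (1 / (Fintype.card Λ * ((lab k P).card : ℂ) ^ 2)) *
          (if TlV S V Lk T E b q t s z.2.2.1 z.2.2.2 P₁ then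
      (Fintype.card k : ℂ) ^ (S.rs b q).card *
      ph S ψ z.2.1 b z.1 (cutc S (S.bl q) q t z.2.2.1)
        (cuty S E (S.bl q) q s z.2.2.2) *
      (Fz b * (Real.exp (-(S.nm b / X)) : ℂ)) else 0) := by
          refine sum_congr rfl fun b _ => ?_
          exact Eq.trans (sum_congr rfl fun q _ => sum_comm) sum_comm
      _ = _ := sum_comm
  rw [e1]
  refine (norm_sum_le _ _).trans ?_
  have h1 : ∀ z ∈ Z, ‖(1 / (Fintype.card Λ * ((lab k P).card : ℂ) ^ 2)) *
      ∑ b ∈ P.powerset with (S.Fam b ∧ Ok S (fun _ ↦ True) T b), ∑ q ∈ b with (S.Wt E b q ∧ S.bl q = j ∧ ¬ V q),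
      ∑ P₁ ∈ b with S.bl P₁ = i, (if TlV S V Lk T E b q t s z.2.2.1 z.2.2.2 P₁ then
      (Fintype.card k : ℂ) ^ (S.rs b q).card *
      ph S ψ z.2.1 b z.1 (cutc S (S.bl q) q t z.2.2.1)
        (cuty S E (S.bl q) q s z.2.2.2) *
      (Fz b * (Real.exp (-(S.nm b / X)) : ℂ)) else 0)‖ ≤
      1 / (Fintype.card Λ * ((lab k P).card : ℝ) ^ 2) * M₁ := by
    intro z hz
    rw [norm_mul, norm_div, norm_one, norm_mul, norm_pow, Complex.norm_natCast,
      Complex.norm_natCast]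
    exact mul_le_mul_of_nonneg_left (fixed_leV S hdec V Fz Dz hFD hD hF ψ Lk Cs M g K hH T E i j hi hj hTi hTj hij
      t s ht hs X hX z.1 z.2.1 z.2.2.1 z.2.2.2 P) (by positivity)
  refine (sum_le_sum h1).trans ?_
  rw [sum_const, nsmul_eq_mul]
  have h3 : Z.card = Fintype.card U * (Fintype.card Λ *
      ((lab k P).card * (lab k P).card)) := by
    rw [hZ, card_product, card_product, card_product, card_univ, card_univ, AddChar.card_eq]
  have h4 : (Z.card : ℝ) ≤ Fintype.card U * Fintype.card k *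
      (Fintype.card Λ * ((lab k P).card : ℝ) ^ 2) := by
    rw [h3]
    have h5 : Fintype.card U * (Fintype.card Λ * ((lab k P).card * (lab k P).card)) ≤
        Fintype.card U * Fintype.card k * (Fintype.card Λ * (lab k P).card ^ 2) := by
      have h6 : 1 ≤ Fintype.card k := Fintype.card_pos
      calc _ = Fintype.card U * 1 * (Fintype.card Λ * (lab k P).card ^ 2) := by ring
        _ ≤ _ := by gcongr
    exact_mod_cast h5
  have h7 : (0 : ℝ) < (lab k P).card := by exact_mod_cast hlab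
  have h8 : (0 : ℝ) < Fintype.card Λ := by exact_mod_cast Fintype.card_pos
  calc (Z.card : ℝ) * (1 / (Fintype.card Λ * ((lab k P).card : ℝ) ^ 2) * M₁) ≤
      (Fintype.card U * Fintype.card k * (Fintype.card Λ * ((lab k P).card : ℝ) ^ 2)) *
        (1 / (Fintype.card Λ * ((lab k P).card : ℝ) ^ 2) * M₁) := by gcongr
    _ = _ := by field_simp

open Classical in
theorem t_osag (hfou : T_FOU) : T_OSAG := by
  intro p _ B B₀ k U Λ C _ _ _ _ _ _ _ _ _ _ _ S ψ Lk Cs M κ g K hG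
  have hH : Hyp₃ S ψ Lk Cs M g K := hG.toHyp₃
  have hdec : C_DEC := Pool.Agent.Helper22.PP.c_dec
  have : Fintype C := Fintype.ofFinite C
  obtain ⟨ψ₁, hψ₁⟩ := ex_char p
  have hp1 : 1 ≤ p := (Fact.out : p.Prime).one_le
  have hp1' : (1 : ℝ) ≤ p := by exact_mod_cast hp1
  set n0 := Fintype.card k * p * K with hn0
  set C1 : ℕ := 4 * Fintype.card U * Fintype.card k ^ 4 * Fintype.card C * K ^ 3 * 3 ^ n0
    with hC1
  refine ⟨C1 + n0, fun V G hWG E T i j t s X P hT hTi hTj hij ht hs hX => ?_⟩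
  have hi : 1 ≤ i := hT.trans hTi
  have hj : 1 ≤ j := hT.trans hTj
  have hX0 : 0 < X := by linarith
  -- the Fourier expansion
  obtain ⟨h, hh1, hh2, hh3⟩ := hfou p B B₀ k U Λ C S ψ₁ hψ₁ V G hWG P
  have hmain : ‖∑ b ∈ P.powerset with (S.Fam b ∧ Ok S (fun _ ↦ True) T b),
      ∑ q ∈ b with (S.Wt E b q ∧ S.bl q = j ∧ ¬ V q), ∑ q₁ ∈ b with S.bl q₁ = i,
        (G b : ℂ) * ful₃ S ψ E P b q t s (fun c y ↦ TlV S V Lk T E b q t s c y q₁) *
          (Real.exp (-(S.nm b / X)) : ℂ)‖ ≤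
      Fintype.card U * Fintype.card k *
    ∑ r ∈ P.powerset, Fintype.card C * ((Fintype.card k : ℝ) ^ 3 *
      (((Fintype.card k : ℝ) * p) ^ r.card *
      (K * 2 ^ (i + j) * (i + j) ^ K * (2 : ℝ) ^ (-(min i j : ℝ) / K) *
        Real.exp (-(S.nm r / (2 * X / 2 ^ (i + j))))))) := by
    set MM : ℝ := Fintype.card U * Fintype.card k *
    ∑ r ∈ P.powerset, Fintype.card C * ((Fintype.card k : ℝ) ^ 3 *
      (((Fintype.card k : ℝ) * p) ^ r.card *
      (K * 2 ^ (i + j) * (i + j) ^ K * (2 : ℝ) ^ (-(min i j : ℝ) / K) *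
        Real.exp (-(S.nm r / (2 * X / 2 ^ (i + j))))))) with hMM
    have e1 : ∑ b ∈ P.powerset with (S.Fam b ∧ Ok S (fun _ ↦ True) T b),
      ∑ q ∈ b with (S.Wt E b q ∧ S.bl q = j ∧ ¬ V q), ∑ q₁ ∈ b with S.bl q₁ = i,
        (G b : ℂ) * ful₃ S ψ E P b q t s (fun c y ↦ TlV S V Lk T E b q t s c y q₁) *
          (Real.exp (-(S.nm b / X)) : ℂ) =
      ∑ z ∈ lab (ZMod p) P, (1 / (p : ℂ)) ^ P.card *
      ∑ b ∈ P.powerset with (S.Fam b ∧ Ok S (fun _ ↦ True) T b),
      ∑ q ∈ b with (S.Wt E b q ∧ S.bl q = j ∧ ¬ V q), ∑ q₁ ∈ b with S.bl q₁ = i,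
          ful₃ S ψ E P b q t s (fun c y ↦ TlV S V Lk T E b q t s c y q₁) *
            (FF S V ψ₁ h z b * (Real.exp (-(S.nm b / X)) : ℂ)) := by
      simp only [mul_sum]
      rw [sum_comm (s := lab (ZMod p) P)]
      refine sum_congr rfl fun b hb => ?_
      rw [sum_comm (s := lab (ZMod p) P)]
      refine sum_congr rfl fun q _ => ?_
      rw [sum_comm (s := lab (ZMod p) P)]
      refine sum_congr rfl fun q₁ _ => ?_
      rw [hh3 b (mem_powerset.1 (mem_filter.1 hb).1)]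
      rw [mul_sum, sum_mul, sum_mul]
      refine sum_congr rfl fun z _ => ?_
      unfold FF
      ring
    rw [e1]
    refine (norm_sum_le _ _).trans ?_
    have e2 : ∀ z ∈ lab (ZMod p) P, ‖(1 / (p : ℂ)) ^ P.card *
      ∑ b ∈ P.powerset with (S.Fam b ∧ Ok S (fun _ ↦ True) T b),
      ∑ q ∈ b with (S.Wt E b q ∧ S.bl q = j ∧ ¬ V q), ∑ q₁ ∈ b with S.bl q₁ = i,
          ful₃ S ψ E P b q t s (fun c y ↦ TlV S V Lk T E b q t s c y q₁) *
            (FF S V ψ₁ h z b * (Real.exp (-(S.nm b / X)) : ℂ))‖ ≤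
        (1 / (p : ℝ)) ^ P.card * MM := by
      intro z _
      rw [norm_mul, norm_pow, norm_div, norm_one, Complex.norm_natCast]
      exact mul_le_mul_of_nonneg_left (total_leV S hdec V (FF S V ψ₁ h z) (DD S V ψ₁ z)
        (fun r q₁ q₂ => FF_two S V ψ₁ h z r q₁ q₂) (DD_norm S V ψ₁ z) (FF_norm S V ψ₁ h hh1 z)
        ψ Lk Cs M g K hH T E i j hi hj hTi hTj hij t s ht hs X hX0 P) (by positivity)
    refine (sum_le_sum e2).trans ?_
    rw [sum_const, nsmul_eq_mul, (Pool.Agent.Helper83.PP.c_lab B (ZMod p) P).1, ZMod.card]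
    rw [← mul_assoc]
    have e3 : ((p ^ P.card : ℕ) : ℝ) * (1 / (p : ℝ)) ^ P.card = 1 := by
      push_cast
      rw [← mul_pow, mul_one_div, div_self (by positivity), one_pow]
    rw [e3, one_mul]
  refine hmain.trans ?_
  set Y : ℝ := 2 * X / 2 ^ (i + j) with hY
  have hY0 : 0 < Y := by positivity
  have h2ij : (2 : ℝ) ≤ 2 ^ (i + j) := by
    calc (2 : ℝ) = 2 ^ 1 := by norm_num
      _ ≤ 2 ^ (i + j) := pow_le_pow_right₀ (by norm_num) (by omega)
  have hYX : Y ≤ X := by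
    rw [hY, div_le_iff₀ (by positivity)]
    nlinarith
  set w : ℝ := (2 : ℝ) ^ (-(min i j : ℝ) / K) with hw
  have hw0 : 0 ≤ w := by positivity
  have hQ1 : 1 ≤ Fintype.card k := Fintype.card_pos
  have hK1 : (1 : ℝ) ≤ K := by exact_mod_cast hH.one_le
  have hgX : 1 ≤ g X := hH.g_one X
  have hgY : g Y ≤ K * g X := hH.g_mono Y X hYX
  have hQ1' : (1 : ℝ) ≤ Fintype.card k := by exact_mod_cast hQ1
  have hpQ : (p : ℝ) ≤ Fintype.card k := by
    have h1 : Fintype.card (ZMod p) ≤ Fintype.card k :=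
      Fintype.card_le_of_injective _ (algebraMap (ZMod p) k).injective
    rw [ZMod.card] at h1
    exact_mod_cast h1
  have h1 := hG.htG (fun _ => Fintype.card k * p) (fun q => ⟨by positivity, by nlinarith⟩)
    Y hY0 P
  simp only [prod_const] at h1
  have h2 : ∑ q ∈ S.upto Y, ((Fintype.card k : ℝ) * p - 1) / S.N q ≤
      n0 * (1 + Real.log (lg X + 1)) := by
    have h3 := upto_sum S ψ g K hH.toHyp₀ X Y hYX
    have h4 : ∑ q ∈ S.upto Y, ((Fintype.card k : ℝ) * p - 1) / S.N q =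
        ((Fintype.card k : ℝ) * p - 1) * ∑ q ∈ S.upto Y, (1 : ℝ) / S.N q := by
      rw [mul_sum]
      exact sum_congr rfl fun q _ => by ring
    have h5 : (0 : ℝ) ≤ (Fintype.card k : ℝ) * p - 1 := by nlinarith
    have h6 : 0 ≤ ∑ q ∈ S.upto Y, (1 : ℝ) / S.N q := sum_nonneg fun q _ => by positivity
    rw [h4, hn0]
    push_cast
    rw [mul_assoc ((Fintype.card k : ℝ) * p)]
    refine mul_le_mul (by linarith) h3 h6 (by positivity)
  have hL0 : (0 : ℝ) < (lg X : ℝ) + 1 := by positivity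
  have h3 : Real.exp (∑ q ∈ S.upto Y, ((Fintype.card k : ℝ) * p - 1) / S.N q) ≤
      3 ^ n0 * ((lg X : ℝ) + 2) ^ n0 := by
    calc _ ≤ Real.exp (n0 * (1 + Real.log (lg X + 1))) := Real.exp_le_exp.2 h2
      _ = (Real.exp 1 * (lg X + 1)) ^ n0 := by
        rw [Real.exp_nat_mul, Real.exp_add, Real.exp_log hL0]
      _ ≤ (3 * ((lg X : ℝ) + 2)) ^ n0 := by
        have h4 : Real.exp 1 ≤ 3 := by
          have := Real.exp_one_lt_d9
          linarith
        refine pow_le_pow_left₀ (by positivity) ?_ _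
        refine mul_le_mul h4 (by linarith) hL0.le (by norm_num)
      _ = _ := by rw [mul_pow]
  have hmin : min 1 Y ≤ 2 * min 1 (X / 2 ^ (i + j)) := by
    have h5 : Y = 2 * (X / 2 ^ (i + j)) := by
      rw [hY]
      ring
    rw [h5]
    have h6 : 0 < X / 2 ^ (i + j) := by positivity
    rcases le_total 1 (X / 2 ^ (i + j)) with h7 | h7
    · rw [min_eq_left h7]
      exact (min_le_left _ _).trans (by norm_num)
    · rw [min_eq_right h7]
      exact min_le_right _ _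
  set mm : ℝ := min 1 (X / 2 ^ (i + j)) with hmm
  have hmm0 : 0 ≤ mm := by
    rw [hmm]
    exact le_min (by norm_num) (by positivity)
  -- the sum over `r`
  have h8 : ∑ r ∈ P.powerset, Fintype.card C * ((Fintype.card k : ℝ) ^ 3 *
      (((Fintype.card k : ℝ) * p) ^ r.card *
      (K * 2 ^ (i + j) * (i + j) ^ K * w * Real.exp (-(S.nm r / Y))))) ≤
      Fintype.card C * (Fintype.card k : ℝ) ^ 3 * (K * 2 ^ (i + j) * (i + j) ^ K * w) *
        (K * (Y * (2 * mm) * (K * g X)) * (3 ^ n0 * ((lg X : ℝ) + 2) ^ n0)) := by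
    have e1 : ∑ r ∈ P.powerset, Fintype.card C * ((Fintype.card k : ℝ) ^ 3 *
        (((Fintype.card k : ℝ) * p) ^ r.card *
        (K * 2 ^ (i + j) * (i + j) ^ K * w * Real.exp (-(S.nm r / Y))))) =
        Fintype.card C * (Fintype.card k : ℝ) ^ 3 * (K * 2 ^ (i + j) * (i + j) ^ K * w) *
        ∑ r ∈ P.powerset, ((Fintype.card k : ℝ) * p) ^ r.card * Real.exp (-(S.nm r / Y)) := by
      rw [mul_sum]
      exact sum_congr rfl fun r _ => by ring
    rw [e1]
    refine mul_le_mul_of_nonneg_left ?_ (by positivity)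
    refine h1.trans ?_
    have hgY0 : 0 ≤ g Y := le_trans (by norm_num) (hH.g_one Y)
    have h9 : Y * min 1 Y * g Y ≤ Y * (2 * mm) * (K * g X) := by
      have h10 : 0 ≤ min 1 Y := le_min (by norm_num) hY0.le
      gcongr
    have h11 : 0 ≤ Y * min 1 Y * g Y := by
      have h10 : 0 ≤ min 1 Y := le_min (by norm_num) hY0.le
      positivity
    refine mul_le_mul ?_ h3 (Real.exp_pos _).le ?_
    · exact mul_le_mul_of_nonneg_left h9 (by positivity)
    · have : 0 ≤ Y * (2 * mm) * (K * g X) := h11.trans h9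
      positivity
  refine (mul_le_mul_of_nonneg_left h8 (by positivity)).trans ?_
  have h12 : (2 : ℝ) ^ (i + j) * Y = 2 * X := by
    rw [hY]
    field_simp
  have h13 : (Fintype.card U : ℝ) * Fintype.card k * (Fintype.card C *
      (Fintype.card k : ℝ) ^ 3 * (K * 2 ^ (i + j) * (i + j) ^ K * w) *
        (K * (Y * (2 * mm) * (K * g X)) * (3 ^ n0 * ((lg X : ℝ) + 2) ^ n0))) =
      (C1 : ℝ) * ((lg X : ℝ) + 2) ^ n0 * (i + j) ^ K * w * mm * (X * g X) := by
    rw [hC1]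
    push_cast
    linear_combination ((Fintype.card U : ℝ) * Fintype.card k ^ 4 * Fintype.card C * K ^ 3 *
      (i + j) ^ K * w * 2 * mm * g X * 3 ^ n0 * ((lg X : ℝ) + 2) ^ n0) * h12
  rw [h13]
  have h14 : (C1 : ℝ) ≤ ((C1 + n0 : ℕ) : ℝ) := by
    push_cast
    have : (0 : ℝ) ≤ n0 := Nat.cast_nonneg _
    linarith
  have h15 : ((lg X : ℝ) + 2) ^ n0 ≤ ((lg X : ℝ) + 2) ^ (C1 + n0) := by
    refine pow_le_pow_right₀ ?_ (by omega)
    have : (0 : ℝ) ≤ lg X := Nat.cast_nonneg _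
    linarith
  have h16 : 0 ≤ X * g X := by positivity
  gcongr

end Pool.Agent.Helper70.TH
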